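import Mathlib
import Pool.Agent.Work.MP_c51d14_co.Interface

/-! Block FINAL: the theorem for Euclidean polytopes, from S. -/

namespace Pool.Agent.TP

open Finset

section

variable {n d : ℕ}

abbrev Eu (n : ℕ) := EuclideanSpace ℝ (Fin n)

/-- The linear span of the lifted points. -/
def liftE (V : Set (Eu n)) : Submodule ℝ (Eu n × ℝ) :=
  Submodule.span ℝ (Set.range fun p : V => ((p : Eu n), (1 : ℝ)))

/-- The lifted points. -/
def liftV (V : Set (Eu n)) (p : V) : liftE V :=
  ⟨((p : Eu n), (1 : ℝ)), Submodule.subset_span ⟨p, rfl⟩⟩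

lemma span_liftV (V : Set (Eu n)) : Submodule.span ℝ (Set.range (liftV V)) = ⊤ := by
  have h : Set.range (liftV V) =
      ((↑) ⁻¹' (Set.range fun p : V => ((p : Eu n), (1 : ℝ))) : Set (liftE V)) := by
    ext z
    constructor
    · rintro ⟨p, rfl⟩
      exact ⟨p, rfl⟩
    · rintro ⟨p, hp⟩
      exact ⟨p, Subtype.ext hp⟩
  rw [h]
  exact Submodule.span_span_coe_preimage

/-- The dimension of the lifted space. -/
lemma finrank_liftE (V : Set (Eu n)) (hV : V.Nonempty) :
    Module.finrank ℝ (vectorSpan ℝ (convexHull ℝ V)) + 1 ≤ Module.finrank ℝ (liftE V) := by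
  obtain ⟨p₀, hp₀⟩ := hV
  have hvs : vectorSpan ℝ (convexHull ℝ V) = vectorSpan ℝ V := by
    rw [← direction_affineSpan, affineSpan_convexHull, direction_affineSpan]
  rw [hvs]
  have hmem : ∀ w ∈ vectorSpan ℝ V, ((w, (0 : ℝ)) : Eu n × ℝ) ∈ liftE V := by
    intro w hw
    rw [vectorSpan_eq_span_vsub_set_right ℝ hp₀] at hw
    induction hw using Submodule.span_induction with
    | mem x hx =>
      obtain ⟨p, hp, rfl⟩ := hx
      have h1 : ((p, (1 : ℝ)) : Eu n × ℝ) ∈ liftE V := Submodule.subset_span ⟨⟨p, hp⟩, rfl⟩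
      have h2 : ((p₀, (1 : ℝ)) : Eu n × ℝ) ∈ liftE V := Submodule.subset_span ⟨⟨p₀, hp₀⟩, rfl⟩
      have h3 := (liftE V).sub_mem h1 h2
      simpa using h3
    | zero => exact (liftE V).zero_mem
    | add x y _ _ hx hy =>
      have h3 := (liftE V).add_mem hx hy
      simpa using h3
    | smul a x _ hx =>
      have h3 := (liftE V).smul_mem a hx
      simpa using h3
  let j : (vectorSpan ℝ V × ℝ) →ₗ[ℝ] liftE V :=
    { toFun := fun w => ⟨((w.1 : Eu n) + w.2 • p₀, w.2), by
        have h1 := hmem w.1 w.1.2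
        have h2 : ((p₀, (1 : ℝ)) : Eu n × ℝ) ∈ liftE V := Submodule.subset_span ⟨⟨p₀, hp₀⟩, rfl⟩
        have h3 := (liftE V).add_mem h1 ((liftE V).smul_mem w.2 h2)
        simpa using h3⟩
      map_add' := by
        intro x y
        apply Subtype.ext
        simp only [Prod.fst_add, Submodule.coe_add, Prod.snd_add, Prod.mk_add_mk, Prod.mk.injEq,
          and_true]
        rw [add_smul]
        abel
      map_smul' := by
        intro a x
        apply Subtype.ext
        simp only [Prod.smul_fst, Submodule.coe_smul, Prod.smul_snd, RingHom.id_apply,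
          Prod.smul_mk, Prod.mk.injEq, and_true, smul_eq_mul]
        rw [smul_add, smul_smul] }
  have hj : Function.Injective j := by
    intro x y hxy
    have h1 : (((x.1 : Eu n) + x.2 • p₀, x.2) : Eu n × ℝ) = ((y.1 : Eu n) + y.2 • p₀, y.2) :=
      congrArg (fun z : liftE V => (z : Eu n × ℝ)) hxy
    have h2 : (x.1 : Eu n) + x.2 • p₀ = (y.1 : Eu n) + y.2 • p₀ := (Prod.mk.injEq _ _ _ _ ▸ h1).1
    have h3 : x.2 = y.2 := (Prod.mk.injEq _ _ _ _ ▸ h1).2
    rw [h3] at h2
    exact Prod.ext (Subtype.ext (add_right_cancel h2)) h3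
  have h4 := LinearMap.finrank_le_finrank_of_injective hj
  rw [Module.finrank_prod, Module.finrank_self] at h4
  exact h4

/-- The affine functional of a face. -/
lemma face_functional (V : Set (Eu n)) (ψ : Module.Dual ℝ (liftE V)) :
    ∃ (l : Eu n →ₗ[ℝ] ℝ) (c : ℝ), ∀ p : V, ψ (liftV V p) = c - l p := by
  obtain ⟨Ψ, hΨ⟩ := ψ.exists_extend
  refine ⟨-(Ψ ∘ₗ LinearMap.inl ℝ (Eu n) ℝ), Ψ (0, 1), fun p => ?_⟩
  have h1 : ψ (liftV V p) = Ψ ((p : Eu n), (1 : ℝ)) := by
    rw [← hΨ]
    rfl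
  rw [h1]
  have h2 : (((p : Eu n), (1 : ℝ)) : Eu n × ℝ) = ((p : Eu n), (0 : ℝ)) + (0, 1) := by simp
  rw [h2, map_add]
  simp
  ring

open scoped Classical in
/-- Convex combinations over a finite set, indexed by the type. -/
lemma mem_hull_iff {V : Set (Eu n)} [Fintype V] (F : Finset V) (x : Eu n) :
    x ∈ convexHull ℝ ((fun p : V => (p : Eu n)) '' (F : Set V)) ↔
      ∃ w : V → ℝ, (∀ p, 0 ≤ w p) ∧ (∀ p, w p ≠ 0 → p ∈ F) ∧ ∑ p, w p = 1 ∧
        ∑ p, w p • (p : Eu n) = x := by
  constructor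
  · intro hx
    have hx2 : x ∈ convexHull ℝ ((F.image fun p : V => (p : Eu n) : Finset (Eu n)) :
        Set (Eu n)) := by
      rw [Finset.coe_image]
      exact hx
    rw [Finset.mem_convexHull'] at hx2
    obtain ⟨w, hw0, hw1, hwx⟩ := hx2
    refine ⟨fun p => if p ∈ F then w p else 0, fun p => ?_, fun p hp => ?_, ?_, ?_⟩
    · beta_reduce
      by_cases h : p ∈ F
      · rw [if_pos h]
        exact hw0 _ (Finset.mem_image_of_mem _ h)
      · rw [if_neg h]
    · by_contra h
      exact hp (if_neg h)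
    · rw [← hw1, Finset.sum_image (fun a _ b _ h => Subtype.ext h), Finset.sum_ite_mem,
        Finset.univ_inter]
    · rw [← hwx, Finset.sum_image (fun a _ b _ h => Subtype.ext h)]
      rw [← Finset.sum_subset (Finset.subset_univ F)]
      · refine Finset.sum_congr rfl fun p hp => ?_
        beta_reduce
        rw [if_pos hp]
      · intro p _ hp
        beta_reduce
        rw [if_neg hp, zero_smul]
  · rintro ⟨w, hw0, hwF, hw1, rfl⟩
    have h1 : ∑ p, w p • (p : Eu n) = ∑ p ∈ F, w p • (p : Eu n) := by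
      symm
      apply Finset.sum_subset (Finset.subset_univ F)
      intro p _ hp
      have : w p = 0 := by
        by_contra h
        exact hp (hwF p h)
      rw [this, zero_smul]
    have h2 : ∑ p ∈ F, w p = 1 := by
      rw [← hw1]
      apply Finset.sum_subset (Finset.subset_univ F)
      intro p _ hp
      by_contra h
      exact hp (hwF p h)
    rw [h1]
    exact (convex_convexHull ℝ _).sum_mem (fun p _ => hw0 p) h2
      (fun p hp => subset_convexHull ℝ _ ⟨p, hp, rfl⟩)

/-- The value of the affine functional on a convex combination. -/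
lemma eval_comb {V : Set (Eu n)} [Fintype V] (l : Eu n →ₗ[ℝ] ℝ) (c : ℝ) (w : V → ℝ)
    (hw : ∑ p, w p = 1) : c - l (∑ p, w p • (p : Eu n)) = ∑ p, w p * (c - l p) := by
  have h1 : ∑ p, w p * (c - l p) = (∑ p, w p) * c - ∑ p, w p * l p := by
    rw [Finset.sum_mul, ← Finset.sum_sub_distrib]
    exact Finset.sum_congr rfl fun p _ => by ring
  rw [h1, hw, one_mul, map_sum]
  simp [smul_eq_mul]

/-- Faces of the configuration give faces of the polytope. -/
lemma polyFace_of_isFace {V : Set (Eu n)} [Fintype V] (F : Finset V) (hF : IsFace (liftV V) F)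
    (hne : F.Nonempty) :
    PolyFace (convexHull ℝ V) (convexHull ℝ ((fun p : V => (p : Eu n)) '' (F : Set V))) := by
  classical
  obtain ⟨ψ, hψ0, hψF⟩ := hF
  obtain ⟨l, c, hlc⟩ := face_functional V ψ
  have hnn : ∀ p : V, 0 ≤ c - l p := fun p => by rw [← hlc]; exact hψ0 p
  have hz : ∀ p : V, p ∈ F ↔ c - l p = 0 := fun p => by rw [← hlc]; exact hψF p
  obtain ⟨p₀, hp₀⟩ := hne
  have hVrange : (fun p : V => (p : Eu n)) '' ((Finset.univ : Finset V) : Set V) = V := by
    simp
  refine ⟨⟨(p₀ : Eu n), subset_convexHull ℝ _ ⟨p₀, hp₀, rfl⟩⟩, ?_⟩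
  by_cases hl : l = 0
  · left
    have hall : F = Finset.univ := by
      apply Finset.eq_univ_of_forall
      intro p
      rw [hz, hl]
      have := (hz p₀).mp hp₀
      rw [hl] at this
      simpa using this
    rw [hall, hVrange]
  · right
    refine ⟨l, c, hl, ?_, ?_⟩
    · intro x hx
      rw [← hVrange] at hx
      obtain ⟨w, hw0, -, hw1, rfl⟩ := (mem_hull_iff _ x).mp hx
      have h1 := eval_comb l c w hw1
      have h2 : 0 ≤ ∑ p, w p * (c - l p) :=
        Finset.sum_nonneg fun p _ => mul_nonneg (hw0 p) (hnn p)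
      linarith
    · ext x
      constructor
      · intro hx
        obtain ⟨w, hw0, hwF, hw1, hwx⟩ := (mem_hull_iff _ x).mp hx
        refine ⟨?_, ?_⟩
        · refine convexHull_mono ?_ hx
          rintro _ ⟨p, -, rfl⟩
          exact p.2
        · have h1 := eval_comb l c w hw1
          rw [hwx] at h1
          have h2 : ∑ p, w p * (c - l p) = 0 := by
            apply Finset.sum_eq_zero
            intro p _
            by_cases h : w p = 0
            · rw [h, zero_mul]
            · rw [(hz p).mp (hwF p h), mul_zero]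
          linarith
      · rintro ⟨hx, hlx⟩
        rw [← hVrange] at hx
        obtain ⟨w, hw0, -, hw1, hwx⟩ := (mem_hull_iff _ x).mp hx
        refine (mem_hull_iff _ x).mpr ⟨w, hw0, fun p hp => ?_, hw1, hwx⟩
        have h1 := eval_comb l c w hw1
        rw [hwx, hlx, sub_self] at h1
        have h2 := (Finset.sum_eq_zero_iff_of_nonneg
          (fun p _ => mul_nonneg (hw0 p) (hnn p))).mp h1.symm p (Finset.mem_univ p)
        rcases mul_eq_zero.mp h2 with h | h
        · exact absurd h hp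
        · exact (hz p).mpr h

/-- Disjoint faces of the configuration give disjoint faces of the polytope. -/
lemma disjoint_hulls {V : Set (Eu n)} [Fintype V] (F G : Finset V) (hG : IsFace (liftV V) G)
    (hd : Disjoint F G) :
    Disjoint (convexHull ℝ ((fun p : V => (p : Eu n)) '' (F : Set V)))
      (convexHull ℝ ((fun p : V => (p : Eu n)) '' (G : Set V))) := by
  classical
  rw [Set.disjoint_left]
  intro x hx hx'
  obtain ⟨ψ, hψ0, hψF⟩ := hG
  obtain ⟨l, c, hlc⟩ := face_functional V ψ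
  have hnn : ∀ p : V, 0 ≤ c - l p := fun p => by rw [← hlc]; exact hψ0 p
  have hz : ∀ p : V, p ∈ G ↔ c - l p = 0 := fun p => by rw [← hlc]; exact hψF p
  obtain ⟨w, hw0, hwF, hw1, hwx⟩ := (mem_hull_iff _ x).mp hx
  obtain ⟨w', hw0', hwF', hw1', hwx'⟩ := (mem_hull_iff _ x).mp hx'
  have h1 := eval_comb l c w' hw1'
  rw [hwx'] at h1
  have h2 : ∑ p, w' p * (c - l p) = 0 := by
    apply Finset.sum_eq_zero
    intro p _
    by_cases h : w' p = 0
    · rw [h, zero_mul]
    · rw [(hz p).mp (hwF' p h), mul_zero]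
  have h3 := eval_comb l c w hw1
  rw [hwx, h1, h2] at h3
  have h4 : ∃ p, w p ≠ 0 := by
    by_contra hcon
    push Not at hcon
    rw [Finset.sum_eq_zero (fun p _ => hcon p)] at hw1
    exact zero_ne_one hw1
  obtain ⟨p, hp⟩ := h4
  have h5 := (Finset.sum_eq_zero_iff_of_nonneg
    (fun p _ => mul_nonneg (hw0 p) (hnn p))).mp h3.symm p (Finset.mem_univ p)
  rcases mul_eq_zero.mp h5 with h | h
  · exact hp h
  · exact Finset.disjoint_left.mp hd (hwF p hp) ((hz p).mpr h)

/-- The linear map of an affine map. -/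
noncomputable def fhat (V : Set (Eu n)) (f : Eu n →ᵃ[ℝ] Eu d) : liftE V →ₗ[ℝ] Eu d × ℝ :=
  ((f.linear ∘ₗ LinearMap.fst ℝ (Eu n) ℝ + (LinearMap.snd ℝ (Eu n) ℝ).smulRight (f 0)).prod
    (LinearMap.snd ℝ (Eu n) ℝ)) ∘ₗ (liftE V).subtype

lemma affine_eval (f : Eu n →ᵃ[ℝ] Eu d) (x : Eu n) : f x = f.linear x + f 0 := by
  have h := congrFun f.decomp x
  exact h

lemma fhat_liftV (V : Set (Eu n)) (f : Eu n →ᵃ[ℝ] Eu d) (p : V) :
    fhat V f (liftV V p) = (f p, 1) := by
  show ((f.linear (p : Eu n) + (1 : ℝ) • f 0, (1 : ℝ)) : Eu d × ℝ) = _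
  rw [one_smul, ← affine_eval]

/-- The maps with sum zero. -/
noncomputable def phis (V : Set (Eu n)) (f : Eu n →ᵃ[ℝ] Eu d) (s : ℕ) :
    Fin (s + 1) → (liftE V →ₗ[ℝ] (Fin s → Eu d × ℝ)) :=
  Fin.snoc (α := fun _ => liftE V →ₗ[ℝ] (Fin s → Eu d × ℝ))
    (fun i : Fin s => (LinearMap.single ℝ (fun _ : Fin s => Eu d × ℝ) i) ∘ₗ fhat V f)
    (-(LinearMap.pi fun _ => fhat V f))

lemma phis_castSucc (V : Set (Eu n)) (f : Eu n →ᵃ[ℝ] Eu d) (s : ℕ) (i : Fin s) (x : liftE V) :
    phis V f s i.castSucc x = Pi.single i (fhat V f x) := by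
  unfold phis
  rw [Fin.snoc_castSucc]
  rfl

lemma phis_last (V : Set (Eu n)) (f : Eu n →ᵃ[ℝ] Eu d) (s : ℕ) (x : liftE V) :
    phis V f s (Fin.last s) x = -(fun _ => fhat V f x) := by
  unfold phis
  rw [Fin.snoc_last]
  rfl

lemma phis_sum (V : Set (Eu n)) (f : Eu n →ᵃ[ℝ] Eu d) (s : ℕ) (x : liftE V) :
    ∑ i, phis V f s i x = 0 := by
  rw [Fin.sum_univ_castSucc, phis_last]
  simp only [phis_castSucc]
  rw [Finset.univ_sum_single (fun _ : Fin s => fhat V f x)]
  exact add_neg_cancel _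

end

theorem stmt_Final (hS : Stmt_S) : Stmt_Final := by
  intro d r m n hd hr hm V hV hdim f
  classical
  obtain ⟨s, rfl⟩ : ∃ s, r = s + 1 := ⟨r - 1, by omega⟩
  have hs : 1 ≤ s := by omega
  have hm0 : 0 < m := by
    have h1 : 0 < (d + 1) * (s + 1 - 1) := Nat.mul_pos (by omega) (by omega)
    omega
  have hVne : V.Nonempty := by
    by_contra h
    rw [Set.not_nonempty_iff_eq_empty] at h
    rw [h, convexHull_empty, vectorSpan_empty, finrank_bot] at hdim
    omega
  have : Fintype V := hV.fintype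
  have hfr := finrank_liftE V hVne
  rw [hdim] at hfr
  have hW : Module.finrank ℝ (Fin s → Eu d × ℝ) < Module.finrank ℝ (liftE V) := by
    rw [Module.finrank_pi_fintype]
    simp only [Module.finrank_prod, finrank_euclideanSpace_fin, Module.finrank_self,
      Finset.sum_const, Finset.card_univ, Fintype.card_fin, smul_eq_mul]
    have h1 : (s + 1 - 1) = s := by omega
    rw [h1] at hm
    have h2 : s * (d + 1) = (d + 1) * s := mul_comm _ _
    omega
  have hpos : ∃ ψ : Module.Dual ℝ (liftE V), ∀ j, 0 < ψ (liftV V j) := by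
    refine ⟨(LinearMap.snd ℝ (Eu n) ℝ) ∘ₗ (liftE V).subtype, fun j => ?_⟩
    show (0 : ℝ) < 1
    exact one_pos
  obtain ⟨F, hF, hbad⟩ := hS V (liftE V) (Fin s → Eu d × ℝ) (s + 1) (liftV V) (phis V f s)
    (Nat.succ_pos s) (span_liftV V) hpos (phis_sum V f s) hW
  obtain ⟨hF1, hF2⟩ : (∀ i, IsFace (liftV V) (F i) ∧ F i ⊆ univ ∧ ∀ j ∈ F i, j ∉ (∅ : Set V)) ∧
      ∀ i j, i ≠ j → Disjoint (F i) (F j) := by
    simpa [Tup] using hF
  unfold Good at hbad
  push Not at hbad
  obtain ⟨β, hβ0, hβF, hβs, k₀, hk₀⟩ := hbad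
  -- the combinations
  let z : Fin (s + 1) → liftE V := fun i => ∑ j, β (i, j) • liftV V j
  have hz : ∑ i, phis V f s i (z i) = 0 := by
    rw [← hβs, Fintype.sum_prod_type]
    refine Finset.sum_congr rfl fun i _ => ?_
    show phis V f s i (∑ j, β (i, j) • liftV V j) = _
    rw [map_sum]
    refine Finset.sum_congr rfl fun j _ => ?_
    rw [map_smul]
  have hyeq : ∀ i : Fin (s + 1), fhat V f (z i) = fhat V f (z (Fin.last s)) := by
    intro i
    refine Fin.lastCases rfl (fun i => ?_) i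
    rw [Fin.sum_univ_castSucc, phis_last] at hz
    simp only [phis_castSucc] at hz
    rw [Finset.univ_sum_single (fun i : Fin s => fhat V f (z i.castSucc))] at hz
    have h1 := congrFun hz i
    exact sub_eq_zero.mp (by simpa [sub_eq_add_neg] using h1)
  have hfz : ∀ i, fhat V f (z i) = (∑ j, β (i, j) • f (j : Eu n), ∑ j, β (i, j)) := by
    intro i
    show fhat V f (∑ j, β (i, j) • liftV V j) = _
    rw [map_sum]
    simp only [map_smul, fhat_liftV]
    apply Prod.ext
    · rw [Prod.fst_sum]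
      rfl
    · rw [Prod.snd_sum]
      refine Finset.sum_congr rfl fun j _ => ?_
      show β (i, j) • (1 : ℝ) = _
      rw [smul_eq_mul, mul_one]
  set y : Eu d := (fhat V f (z (Fin.last s))).1 with hy
  set t : ℝ := (fhat V f (z (Fin.last s))).2 with ht
  have hy' : ∀ i, ∑ j, β (i, j) • f (j : Eu n) = y := by
    intro i
    rw [hy, ← hyeq i, hfz i]
  have ht' : ∀ i, ∑ j, β (i, j) = t := by
    intro i
    rw [ht, ← hyeq i, hfz i]
  have htpos : 0 < t := by
    rw [← ht' k₀.1]
    exact Finset.sum_pos' (fun j _ => hβ0 _)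
      ⟨k₀.2, Finset.mem_univ _, lt_of_le_of_ne (hβ0 _) (Ne.symm hk₀)⟩
  have hne : ∀ i, (F i).Nonempty := by
    intro i
    have h1 : ∃ j, β (i, j) ≠ 0 := by
      by_contra hcon
      push Not at hcon
      have := ht' i
      rw [Finset.sum_eq_zero fun j _ => hcon j] at this
      exact htpos.ne this
    obtain ⟨j, hj⟩ := h1
    exact ⟨j, hβF (i, j) hj⟩
  refine ⟨fun i => convexHull ℝ ((fun p : V => (p : Eu n)) '' (F i : Set V)), fun i =>
    polyFace_of_isFace (F i) (hF1 i).1 (hne i), fun i j hij =>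
    disjoint_hulls (F i) (F j) (hF1 j).1 (hF2 i j hij), t⁻¹ • y, ?_⟩
  rw [Set.mem_iInter]
  intro i
  have hw1 : ∑ j, t⁻¹ * β (i, j) = 1 := by
    rw [← Finset.mul_sum, ht' i, inv_mul_cancel₀ htpos.ne']
  refine ⟨∑ j, (t⁻¹ * β (i, j)) • (j : Eu n), ?_, ?_⟩
  · refine (mem_hull_iff (F i) _).mpr ⟨fun j => t⁻¹ * β (i, j), fun j => ?_, fun j hj => ?_, hw1, rfl⟩
    · exact mul_nonneg (inv_nonneg.mpr htpos.le) (hβ0 _)
    · exact hβF (i, j) (right_ne_zero_of_mul hj)
  · rw [affine_eval, map_sum]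
    have h1 : f 0 = ∑ j, (t⁻¹ * β (i, j)) • f 0 := by
      rw [← Finset.sum_smul, hw1, one_smul]
    rw [h1, ← Finset.sum_add_distrib, ← hy' i, Finset.smul_sum]
    refine Finset.sum_congr rfl fun j _ => ?_
    rw [map_smul, ← smul_add, ← affine_eval, smul_smul]

end Pool.Agent.TP
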