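import Mathlib
import Pool.Agent.Work.MP_c51d14_co.Interface

/-! Block S: the linear form of the theorem, from CORE and GEN. -/

namespace Pool.Agent.TP

open Finset

theorem stmt_S (hCore : Stmt_Core) (hGen : Stmt_Gen) : Stmt_S := by
  intro ι E W _ _ _ _ _ _ _ r v Φ hr hspan hpt hsum hdim
  classical
  -- the span of the values
  let W' : Submodule ℝ W := Submodule.span ℝ (Set.range fun k : Fin r × ι => Φ k.1 (v k.2))
  have hmem : ∀ (i : Fin r) (x : E), Φ i x ∈ W' := by
    intro i x
    have hx : x ∈ Submodule.span ℝ (Set.range v) := by rw [hspan]; trivial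
    induction hx using Submodule.span_induction with
    | mem x hx =>
      obtain ⟨j, rfl⟩ := hx
      exact Submodule.subset_span ⟨(i, j), rfl⟩
    | zero => rw [map_zero]; exact W'.zero_mem
    | add x y _ _ hx hy => rw [map_add]; exact W'.add_mem hx hy
    | smul a x _ hx => rw [map_smul]; exact W'.smul_mem a hx
  let n := Module.finrank ℝ W'
  let e : W' ≃ₗ[ℝ] EuclideanSpace ℝ (Fin n) := LinearEquiv.ofFinrankEq _ _ (by simp [n])
  let Φ' : Fin r → (E →ₗ[ℝ] EuclideanSpace ℝ (Fin n)) := fun i =>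
    e.toLinearMap ∘ₗ (Φ i).codRestrict W' (hmem i)
  have hΦ' : ∀ i x, Φ' i x = e ⟨Φ i x, hmem i x⟩ := fun i x => rfl
  obtain ⟨θ, β, hβ, hθ, hg⟩ := hGen ι ι E v v hspan
  let D : Sark ι E (EuclideanSpace ℝ (Fin n)) r :=
    { v := v
      Φ := Φ'
      x₀ := θ
      r_pos := hr
      span_v := hspan
      pointed := hpt
      sum_zero := by
        intro x
        have h1 : ∑ i, Φ' i x = e (∑ i, ⟨Φ i x, hmem i x⟩) := by
          rw [map_sum]
          rfl
        rw [h1]
        have h2 : (∑ i, (⟨Φ i x, hmem i x⟩ : W')) = 0 := by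
          apply Subtype.ext
          rw [AddSubmonoidClass.coe_finsetSum]
          exact hsum x
        rw [h2, map_zero]
      span_Φ := by
        have h1 : (Set.range fun k : Fin r × ι => Φ' k.1 (v k.2)) =
            e.toLinearMap '' ((↑) ⁻¹' (Set.range fun k : Fin r × ι => Φ k.1 (v k.2)) : Set W') := by
          ext z
          constructor
          · rintro ⟨k, rfl⟩
            exact ⟨⟨Φ k.1 (v k.2), hmem _ _⟩, ⟨k, rfl⟩, rfl⟩
          · rintro ⟨w, ⟨k, hk⟩, rfl⟩
            refine ⟨k, ?_⟩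
            show e ⟨Φ k.1 (v k.2), hmem _ _⟩ = e w
            congr 1
            exact Subtype.ext hk
        rw [h1, Submodule.span_image]
        have h2 : Submodule.span ℝ
            ((↑) ⁻¹' (Set.range fun k : Fin r × ι => Φ k.1 (v k.2)) : Set W') = ⊤ :=
          Submodule.span_span_coe_preimage
        rw [h2, Submodule.map_top, LinearEquiv.range]
      dim_lt := by
        rw [finrank_euclideanSpace, Fintype.card_fin]
        exact lt_of_le_of_lt (Submodule.finrank_le W') hdim
      pos := ⟨β, fun x => (hβ x).le, fun _ _ => Set.mem_univ _, hθ⟩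
      gen := hg }
  have hD := hCore ι E (EuclideanSpace ℝ (Fin n)) r D
  unfold Sark.NoSol at hD
  push Not at hD
  obtain ⟨F, hF, hG⟩ := hD
  refine ⟨F, hF, fun hgood => hG ?_⟩
  intro β hβ0 hβs hsum0
  apply hgood β hβ0 hβs
  have h1 : ∑ x : Fin r × ι, β x • D.Φ x.1 (D.v x.2) =
      e (∑ x : Fin r × ι, β x • ⟨Φ x.1 (v x.2), hmem _ _⟩) := by
    rw [map_sum]
    exact Finset.sum_congr rfl fun x _ => by rw [map_smul]; rfl
  rw [h1] at hsum0
  have h2 := e.map_eq_zero_iff.mp hsum0
  have h3 := congrArg (fun w : W' => (w : W)) h2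
  simp only [AddSubmonoidClass.coe_finsetSum, SetLike.val_smul, ZeroMemClass.coe_zero] at h3
  exact h3

end Pool.Agent.TP
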