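import Mathlib
import Pool.Agent.Work.MP_c51d14_co.Basic2

/-! Block TEX: exactness of the complex `sT`, from FILT, TRANSP, STAR and TCX. -/

namespace Pool.Agent.TP

open Finset

theorem exact_of_empty {X : Type} (A : Inc X) (s : Finset X) (n : ℕ) (h : ∀ x, x ∉ s) :
    A.Exact s n := by
  intro c _ _
  exact ⟨0, fun x hx => absurd hx (h x), fun y hy => absurd hy (h y)⟩

open scoped Classical in
theorem prod_d_of_eq {X Y : Type} (A : Inc X) (B : Inc Y) (x y : X × Y) (hxy : x.1 = y.1)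
    (h0 : A.d x.1 y.1 = 0) : (A.prod B).d x y = B.d x.2 y.2 := by
  show (if x.2 = y.2 then A.d x.1 y.1 else 0) + (if x.1 = y.1 then B.d x.2 y.2 else 0) = _
  rw [if_pos hxy, h0]
  simp

namespace Sark

variable {ι E W : Type} [Fintype ι] [AddCommGroup E] [Module ℝ E] [FiniteDimensional ℝ E]
  [NormedAddCommGroup W] [InnerProductSpace ℝ W] [FiniteDimensional ℝ W] {r : ℕ}
  (D : Sark ι E W r)

/-- the member of `N` under a chain -/
theorem exists_bottom {z : Finset (Finset (Fin r × ι))} (hz : z ∈ D.CH) :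
    ∃ Z₀ ∈ D.N, ∀ F : Fin r → Finset ι,
      (∀ Z ∈ z, ∀ i, ∀ j ∈ F i, (i, j) ∈ Z) ↔ ∀ i, F i ⊆ slice Z₀ i := by
  obtain ⟨hz1, hz2⟩ := D.mem_CH.1 hz
  rcases z.eq_empty_or_nonempty with rfl | hne
  · refine ⟨univ, D.univ_mem_N, fun F => ?_⟩
    constructor
    · intro _ i j _
      rw [mem_slice]
      exact Finset.mem_univ _
    · intro _ Z hZ
      exact absurd hZ (Finset.notMem_empty _)
  · obtain ⟨Z₀, h0, h1⟩ := exists_min hz2 hne
    refine ⟨Z₀, (hz1 Z₀ h0).1, fun F => ?_⟩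
    constructor
    · intro h i j hj
      rw [mem_slice]
      exact h Z₀ h0 i j hj
    · intro h Z hZ i j hj
      have := h i hj
      rw [mem_slice] at this
      exact h1 Z hZ this

theorem tInc_d (x y : Finset (Finset (Fin r × ι)) × (Fin r → Finset ι))
    (h : D.TInc.d x y ≠ 0) : y.1 ⊆ x.1 := by
  classical
  by_cases h1 : x.1 = y.1
  · rw [h1]
  · unfold Sark.TInc Inc.prod at h
    simp only [h1, if_false, add_zero] at h
    by_cases h2 : x.2 = y.2
    · rw [if_pos h2] at h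
      unfold Inc.simp at h
      simp only at h
      by_contra h3
      exact h (if_neg fun h4 => h3 h4.1)
    · rw [if_neg h2] at h
      exact absurd rfl h

theorem tInc_d_of_eq (x y : Finset (Finset (Fin r × ι)) × (Fin r → Finset ι))
    (hxy : x.1 = y.1) : D.TInc.d x y = ((fInc D.v).pi r).d x.2 y.2 := by
  have h0 : (Inc.simp (Finset (Fin r × ι))).d x.1 y.1 = 0 := by
    refine if_neg fun h => ?_
    rw [hxy] at h
    omega
  exact prod_d_of_eq _ _ x y hxy h0

/-- the piece of the filtration over the chain `z` -/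
theorem piece_exact (hTransp : Stmt_Transp) (hStar : Stmt_Star)
    (z : Finset (Finset (Fin r × ι)))
    (s' : Finset (Finset (Finset (Fin r × ι)) × (Fin r → Finset ι)))
    (hs' : ∀ x, x ∈ s' ↔ x ∈ D.sT ∧ x.1 = z) : D.TInc.Exact s' (Module.finrank ℝ W) := by
  by_cases hz : z ∈ D.CH
  · obtain ⟨Z₀, hZ₀, hiff⟩ := D.exists_bottom hz
    refine hTransp _ _ D.TInc ((fInc D.v).pi r) _ (Tup D.v (fun i => Sark.slice Z₀ i) ∅) Prod.snd
      z.card (Module.finrank ℝ W) ?_ ?_ ?_ ?_
    · refine ⟨?_, ?_, ?_⟩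
      · intro x hx
        rw [Finset.mem_coe, hs', D.mem_sT] at hx
        obtain ⟨⟨h1, h2, h3⟩, h4⟩ := hx
        rw [h4] at h3
        have h5 := (hiff x.2).1 h3
        rw [Finset.mem_coe, mem_Tup]
        rw [mem_Tup] at h2
        exact ⟨fun i => ⟨(h2.1 i).1, h5 i, (h2.1 i).2.2⟩, h2.2⟩
      · intro x hx y hy hxy
        rw [Finset.mem_coe, hs'] at hx hy
        exact Prod.ext (hx.2.trans hy.2.symm) hxy
      · intro F hF
        rw [Finset.mem_coe, mem_Tup] at hF
        refine ⟨(z, F), ?_, rfl⟩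
        rw [Finset.mem_coe, hs', D.mem_sT, mem_Tup]
        exact ⟨⟨hz, ⟨fun i => ⟨(hF.1 i).1, Finset.subset_univ _, (hF.1 i).2.2⟩, hF.2⟩,
          (hiff F).2 fun i => (hF.1 i).2.1⟩, rfl⟩
    · intro x hx
      rw [hs'] at hx
      show x.1.card + _ = _ + z.card
      rw [hx.2, add_comm]
    · intro x hx y hy
      rw [hs'] at hx hy
      exact D.tInc_d_of_eq x y (hx.2.trans hy.2.symm)
    · intro m hm
      refine hStar ι E D.v r _ ∅ m D.isFace_empty
        (fun i => D.isFace_slice (D.mem_N.1 hZ₀).1 i) ?_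
      rw [Set.empty_inter, rk_empty, D.rk_un_slice hZ₀]
      have := D.dim_lt
      omega
  · refine exact_of_empty _ _ _ fun x hx => ?_
    rw [hs', D.mem_sT] at hx
    exact hz (hx.2 ▸ hx.1.1)

end Sark

theorem stmt_TExact (hFilt : Stmt_Filt) (hTransp : Stmt_Transp) (hStar : Stmt_Star)
    (hTCx : Stmt_TCx) : Stmt_TExact := by
  intro ι E W _ _ _ _ _ _ _ r D
  refine hFilt _ _ D.TInc D.sT Prod.fst (Module.finrank ℝ W) (hTCx ι E W r D)
    (fun x _ y _ h => D.tInc_d x y h) (fun z => ?_)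
  refine D.piece_exact hTransp hStar z _ fun x => ?_
  simp

end Pool.Agent.TP
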